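import Pool.Agent.H8.DS.TarA

/-!
# The module IMG of the board `ds_modules`

The end points of a word in a given slit form an interval.
-/

open Set

namespace DS

namespace H56IMG

variable {S B : Type}

theorem go_fst (Y : Sys S B) (w : List B) (hw : w ≠ []) (z z' y' y'' : S × ℝ)
    (h : Y.Go w z y') (h' : Y.Go w z' y'') : y'.1 = y''.1 := by
  induction w generalizing z z' with
  | nil => exact absurd rfl hw
  | cons b w ih =>
    obtain ⟨-, -, h3⟩ := h
    obtain ⟨-, -, h3'⟩ := h'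
    by_cases hw' : w = []
    · subst hw'
      simp only [Sys.Go] at h3 h3'
      rw [← h3, ← h3']
    · exact ih hw' _ _ h3 h3'

end H56IMG

theorem pf_IMG : T_IMG := by
  intro S B Y w s
  cases w with
  | nil =>
    have : {x : ℝ | ∃ z, Y.Go [] z (s, x)} = univ := by
      refine eq_univ_of_forall fun x => ⟨(s, x), rfl⟩
    rw [this]
    exact ordConnected_univ
  | cons b w =>
    refine ⟨?_⟩
    rintro x1 ⟨⟨s1, ξ1⟩, h1⟩ x2 ⟨⟨s2, ξ2⟩, h2⟩ x ⟨hx1, hx2⟩
    have e1 : Y.src b = s1 := h1.1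
    have e2 : Y.src b = s2 := h2.1
    subst e1
    subst e2
    have v1 : x1 = Y.wal (b :: w) * ξ1 + Y.wc (b :: w) := Y.Go_val _ _ _ h1
    have v2 : x2 = Y.wal (b :: w) * ξ2 + Y.wc (b :: w) := Y.Go_val _ _ _ h2
    have hp := Y.wal_pos (b :: w)
    have ho := Y.Go_ord (b :: w) (Y.src b)
    have hmem : (x - Y.wc (b :: w)) / Y.wal (b :: w) ∈ Icc ξ1 ξ2 := by
      constructor
      · rw [le_div_iff₀ hp]
        linarith
      · rw [div_le_iff₀ hp]
        linarith
    obtain ⟨⟨t, y⟩, hy⟩ := ho.out ⟨_, h1⟩ ⟨_, h2⟩ hmem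
    have ht : t = s := H56IMG.go_fst Y (b :: w) (List.cons_ne_nil _ _) _ _ _ _ hy h1
    have hyv : y = Y.wal (b :: w) * ((x - Y.wc (b :: w)) / Y.wal (b :: w)) + Y.wc (b :: w) :=
      Y.Go_val _ _ _ hy
    rw [mul_div_cancel₀ _ hp.ne', sub_add_cancel] at hyv
    subst ht
    subst hyv
    exact ⟨_, hy⟩

end DS
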