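import Pool.Agent.H8.DS.TarG

/-!
# The module IRR of the board `ds_modules`

In a flat torus every segment of some height meets the interior of a given slit, for all
directions near a given irrational one.
-/

open Set

namespace DS

theorem pf_IRR (hFL : T_FL) : T_IRR := by
  intro C S X hX s t₀ hH hirr
  obtain ⟨e, f, hk⟩ : ∃ e f, X.kind (X.comp s) = .flat e f := by
    cases h : X.kind (X.comp s) with
    | flat e f => exact ⟨e, f, rfl⟩
    | hopf l => exact absurd (by rw [Data.Hopf, h]; trivial) hH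
  have hg : e.1 * f.2 - e.2 * f.1 ≠ 0 := by
    have := hX.good (X.comp s)
    rwa [hk] at this
  have hL : 0 < X.len s := hX.pos s
  obtain ⟨H, hH0, hF⟩ := hFL e f t₀ hg (hirr _ e f hk) (X.len s / 3) (by positivity)
  refine ⟨H, hH0, X.len s / (4 * H), by positivity, fun t ht z => ?_⟩
  obtain ⟨m, n, ⟨h1, h2⟩, h3, h4⟩ :=
    hF (z.1 - X.a s - t₀ * (z.2 - X.b s) - 2 * X.len s / 3) (z.2 - X.b s)
  set x : ℝ := (m : ℝ) * e.1 + n * f.1 with hx
  set y : ℝ := (m : ℝ) * e.2 + n * f.2 with hy
  have hh : X.b s + y - z.2 ∈ Ioo 0 H := ⟨by linarith, by linarith⟩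
  have hab : |(t - t₀) * (X.b s + y - z.2)| ≤ X.len s / 4 := by
    rw [abs_mul, abs_of_pos hh.1]
    have h5 : |t - t₀| * (X.b s + y - z.2) ≤ X.len s / (4 * H) * H :=
      mul_le_mul ht.le hh.2.le hh.1.le (by positivity)
    have h6 : X.len s / (4 * H) * H = X.len s / 4 := by
      field_simp
    linarith
  have hab' := abs_le.1 hab
  have hval : z.1 + t * (X.b s + y - z.2) - X.a s - x =
      (z.1 - X.a s - t₀ * (z.2 - X.b s)) - (x - t₀ * y) + (t - t₀) * (X.b s + y - z.2) := by
    ring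
  refine ⟨X.b s + y - z.2, hh, (1, x, y), ⟨(m, n), ?_⟩,
    (z.1 + t * (X.b s + y - z.2) - X.a s - x) / X.len s, ⟨?_, ?_⟩, ?_⟩
  · rw [hk]
    rfl
  · refine div_pos ?_ hL
    rw [hval]
    linarith
  · rw [div_lt_one hL, hval]
    linarith
  · have h7 : (z.1 + t * (X.b s + y - z.2) - X.a s - x) / X.len s * X.len s =
        z.1 + t * (X.b s + y - z.2) - X.a s - x := div_mul_cancel₀ _ hL.ne'
    simp only [fwd, act, Data.pt, h7]
    refine Prod.ext ?_ ?_
    · simp only
      ring
    · simp only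
      ring

end DS
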