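import Pool.Agent.H8.DS.TarG

/-!
# The module STEX of the board `ds_modules`

Existence of the start at a valid point.
-/

open Set

namespace DS

theorem pf_STEX : T_STEX := by
  rintro C S X hX ⟨c, z⟩ hv
  simp only at hv
  by_cases h : X.OnSlit c z
  · obtain ⟨s, rfl, g, hg, ξ, hξ, rfl⟩ := h
    have h0 : ξ ≠ 0 := by
      rintro rfl
      exact hv.1 ⟨s, rfl, g, hg, Or.inl rfl⟩
    have h1 : ξ ≠ 1 := by
      rintro rfl
      exact hv.1 ⟨s, rfl, g, hg, Or.inr rfl⟩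
    refine ⟨X.comp (X.glue s), X.pt (X.glue s) ξ, X.len (X.glue s) / (g.1 * X.len s),
      Data.Start.cross s g ξ hg (lt_of_le_of_ne hξ.1 (Ne.symm h0)) (lt_of_le_of_ne hξ.2 h1),
      fun hh => hX.origin _ hh ξ hξ, ?_⟩
    exact div_pos (hX.pos _) (mul_pos (X.deck_pos hX _ g hg) (hX.pos _))
  · exact ⟨c, z, 1, Data.Start.pure c z ⟨h, hv.2⟩, hv.2, one_pos⟩

end DS
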