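import Pool.Agent.H8.DS.TarG

/-!
# The module UPF of the board `ds_modules`

In a flat torus and a good direction there is always a slit above and below.
-/

open Set

namespace DS

theorem pf_UPF (hIRR : T_IRR) (hSLC : T_SLC) : T_UPF := by
  intro C S X hX t ht c hc z
  obtain ⟨s, rfl⟩ := hSLC C S X hX c hc
  obtain ⟨H, hH, ε, hε, hI⟩ := hIRR C S X hX s t hc ht.irr
  have key : ∀ z : ℝ × ℝ, ∃ h ∈ Ioo (0 : ℝ) H, ¬ X.Pure (X.comp s) (fwd t z h) := by
    intro z
    obtain ⟨h, hh, g, hg, η, hη, he⟩ := hI t (by rwa [sub_self, abs_zero]) z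
    refine ⟨h, hh, fun hp => hp.1 ⟨s, rfl, g, hg, η, ⟨hη.1.le, hη.2.le⟩, he⟩⟩
  refine ⟨?_, ?_⟩
  · obtain ⟨h, hh, hn⟩ := key z
    exact ⟨h, hh.1, hn⟩
  · obtain ⟨h, hh, hn⟩ := key (fwd t z (-H))
    refine ⟨H - h, by linarith [hh.2], ?_⟩
    have he : fwd t (fwd t z (-H)) h = fwd t z (-(H - h)) := by
      simp only [fwd]
      refine Prod.ext ?_ ?_
      · simp only
        ring
      · simp only
        ring
    rwa [he] at hn

end DS
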